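import Pool.Agent.TH971.SR.X3
import Pool.Agent.W282.LF.Top

/-!
# MP_a325a5_ag: Zilber-Pink in (products of modular curves of any level) `× G_m^k` for a positive
proportion of all subvarieties given by correspondences over an arbitrary projective variety

Let `Γ_i` be subgroups of `SL_2 (ℝ)` commensurable with `SL_2 (ℤ)`, `X_i` the modular curve
`Γ_i \ ℍ`, for `i = 1, …, n`, and `S = X_1 × … × X_n × G_m^k`, `k ≥ 1`, a mixed Shimura variety. Let
`1 = g_{i,0}, g_{i,1}, …, g_{i,D i}` be modular functions for `Γ_i`, holomorphic on the upper half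
plane. They satisfy the following conditions (`System`), where `jj = j = E₄³ / Δ` is the elliptic
modular function.

* `g_{i,a}` is integral over `ℂ[jj]`,
* there is a combination `s_i = ∑ b_a g_{i,a}` with integral coefficients whose order of pole at
  every cusp is the maximum of the orders of the functions `g_{i,a}` (almost all combinations have
  this property), so that the functions `g_{i,a} / s_i` are integral over the local ring of `P^1`
  at `jj = ∞`.

These are the only conditions which are used; no rationality of the functions is required. For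
example `g_{i,a}` can be a basis of `L (D_i)`, where `D_i` is any effective divisor on the
compactification of `X_i` supported on cusps. (For `Γ_i = SL_2 (ℤ)`, `g_{i,a} = jj ^ a` these are
the polynomials of degree at most `D i` in `jj`.)

`B ⊆ P^N` is an arbitrary projective variety over the algebraic numbers of dimension at most `m`
(`DimLE`): the set of zeros of a family `G` of forms with algebraic coefficients.

A vector `c` of integers gives `r` numerators `N_j` and `r` denominators `M_j` (`form`),
`N_j = ∑_f c(j, 0, f)(y) ∏_i g_{i,f_i} (z_i) ∏_w u_w^(f_w)` and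
`M_j = ∑_f c(j, 1, f)(y) ∏_i g_{i,f_i} (z_i) ∏_w u_w^(f_w)`, the sum over all `f` with
`0 ≤ f_i ≤ D i`, `0 ≤ f_w ≤ D w` (`D w ≥ 1` for the coordinates `u_w` of `G_m^k`), where the
coefficients are arbitrary forms of degree `d_j` in `y_0, …, y_N` with integral coefficients, and
the rational map `F_c = (N_1 / M_1, …, N_r / M_r)` from `B × S` to `ℂ^r`.

Let `V` be any irreducible subvariety of `ℂ^r` over the complex numbers, of any dimension `d`. Let
`X_c = pullback G g c V` be the closed set of all points of `B × S` (given by its inverse image in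
`B × ℍ^n × G_m^k`) at which the multihomogenizations of the polynomials in the ideal of `V` vanish,
evaluated at `N_j, M_j`. It contains the closure of the pull-back `F_c⁻¹(V)`. For `V = {0}` it is
the complete intersection `N_1 = … = N_r = 0` in `B × S`. Its image `V_c` in `S` is a closed
subvariety, as `B` is projective. The expected dimensions are `dim X_c = m + n + k - (r - d)`, and
`dim V_c` is the same number if `r - d ≥ m`, i.e. `codim V_c = (r - d) - m`. For a point `B` these
are the pull-backs of `V` to `S` under random rational maps in all variables.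

The special subvarieties of `S` are (up to the finite correspondence with `Y(1)^n × G_m^k`) the
products `Z × T` of a special subvariety `Z` of `Y(1)^n` and a torsion coset `T`. Here `Z` of
dimension `t` is given by a map `cls` from the coordinates onto `t` classes: the constant
coordinates are special points, and the coordinates of class `l` are `j (g_i z_l)` with fixed
integral matrices `g_i` of positive determinant and a free parameter `z_l` in the upper half plane.
More generally we allow for any finite set `Γ` of complex numbers constants which are special,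
isogenous to an element of `Γ`, or integral over `ℤ[Γ]` (`ModularDatum`), and cosets `T` of algebraic
subgroups of `G_m^k` through points whose coordinates are in the division hull of the multiplicative
group generated by `Γ`. For `Γ = ∅` these are all special subvarieties (and some more).

Theorem: for a positive proportion of the vectors `c` (in every box, in every residue class) there
are no atypical intersections: for every `ρ` every irreducible closed subset `W` of the
intersection of `V_c` with the union of all special subvarieties `Z × T` of codimension at least `ρ`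
of `S` has dimension at most `m + n + k - (r - d) - ρ`, so that
`dim W ≤ dim V_c + dim (Z × T) - dim S` if `dim V_c = m + n + k - (r - d)`. (This is stated for the
image in `Y(1)^n × G_m^k`, which has the same dimension.) The same bound holds for the irreducible
closed subsets `W` of the intersection of `X_c` with `B × Z × T`. For `ρ = 0` it follows that `X_c`
has the expected dimension, if it is not empty. If a component `C` of `V_c` is the image of a
component `X'` of `X_c` with fibres of dimension `f > 0`, the second statement implies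
`dim W ≤ dim C - ρ` for all `W ⊆ C` as above: there are no atypical intersections for `V_c` in all
cases.
-/

namespace Pool.Agent.Results.MP_a325a5_ag.RandomMixedCorrespondences

open MvPolynomial Pool.Agent.W282.ZP H294ZP UpperHalfPlane

/-- The value at `y` of the form of degree `d` with integral coefficients `c u`, the monomials of
degree `d` in `y_0, …, y_N` being indexed by the multisets `u` of size `d`. -/
noncomputable def value {N d : ℕ} (c : Sym (Fin (N + 1)) d → ℤ) (y : Fin (N + 1) → ℂ) : ℂ :=
  ∑ u : Sym (Fin (N + 1)) d, (c u : ℂ) * ((u : Multiset (Fin (N + 1))).map y).prod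

/-- `y` is a vector of homogeneous coordinates of a point of the projective algebraic set `B`
defined by the forms `G k`. -/
def OnB {N : ℕ} {κ : Type*} (G : κ → MvPolynomial (Fin (N + 1)) ℂ) (y : Fin (N + 1) → ℂ) : Prop :=
  y ≠ 0 ∧ ∀ k, eval y (G k) = 0

/-- The projective algebraic set defined by the forms `G k` has dimension at most `m`: it does not
meet some linear subspace defined by `m + 1` linear forms. -/
def DimLE {N : ℕ} {κ : Type*} (G : κ → MvPolynomial (Fin (N + 1)) ℂ) (m : ℕ) : Prop :=
  ∃ t : Fin (m + 1) → Fin (N + 1) → ℂ, ∀ y, OnB G y → ∃ b, ∑ j, t b j * y j ≠ 0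

/-- A special subvariety of `Y(1)^n = ℂ^n` of dimension `t` (with more constants allowed): a map
`cls` from the coordinates onto `t` classes (`none` for constant coordinates), an integral matrix of
positive determinant for every coordinate, and a constant for every coordinate, which is a special
point, isogenous to an element of `Γ`, or integral over `ℤ[Γ]`. -/
structure ModularDatum (Γ : Finset ℂ) (n t : ℕ) where
  cls : Fin n → Option (Fin t)
  surj : ∀ l : Fin t, ∃ i, cls i = some l
  mat : Fin n → Matrix (Fin 2) (Fin 2) ℤ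
  det_pos : ∀ i, 0 < (mat i).det
  const : Fin n → ℂ
  allowed : ∀ i, AllowedConst Γ (const i)

/-- The points of the special subvariety: the constant coordinates are the given constants, and the
coordinates of class `l` are `j (g_i z_l)`, with a free parameter `z_l` in the upper half plane. -/
def ModularDatum.locus {Γ : Finset ℂ} {n t : ℕ} (Z : ModularDatum Γ n t) : Set (Fin n → ℂ) :=
  {x | ∃ z : Fin t → ℍ, ∀ i, (Z.cls i = none → x i = Z.const i) ∧
    ∀ l, Z.cls i = some l → ∃ w : ℍ,
      (w : ℂ) * (Z.mat i 1 0 * z l + Z.mat i 1 1) = Z.mat i 0 0 * z l + Z.mat i 0 1 ∧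
      x i = jj w}

/-- `x` is in the division hull of the group generated by the nonzero elements of `Γ`: a power of `x`
is a product of integral powers of these elements. -/
def InHull (Γ : Finset ℂ) (x : ℂ) : Prop :=
  ∃ l : ℕ, 0 < l ∧ ∃ w : ℂ → ℤ, x ^ l = ∏ γ ∈ Γ.erase 0, γ ^ w γ

/-- The coset `{u | u ^ a = η ^ a for all a in Λ}` of an algebraic subgroup of `(ℂ^×)^k`, of
dimension `k - rank Λ`. -/
def coset {k : ℕ} (Λ : Submodule ℤ (Fin k → ℤ)) (η : Fin k → ℂ) : Set (Fin k → ℂ) :=
  {u | (∀ w, u w ≠ 0) ∧ ∀ a ∈ Λ, ∏ w, u w ^ a w = ∏ w, η w ^ a w}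

/-- The point `(x, u)` of `Y(1)^n × G_m^k` is in a special subvariety `Z × T` of codimension
`n - dim Z + rank Λ` at least `ρ`. -/
def InSpecial (Γ : Finset ℂ) {n k : ℕ} (x : Fin n → ℂ) (u : Fin k → ℂ) (ρ : ℕ) : Prop :=
  ∃ (t : ℕ) (Z : ModularDatum Γ n t) (Λ : Submodule ℤ (Fin k → ℤ)) (η : Fin k → ℂ),
    (∀ w, InHull Γ (η w)) ∧ ρ + t ≤ n + Module.finrank ℤ Λ ∧ x ∈ Z.locus ∧ u ∈ coset Λ η

/-- Functions `1 = g_{i,0}, …, g_{i,D i}` on the upper half plane for every `i = 1, …, n`, integral
over the ring of polynomials in the elliptic modular function, such that for a combination `s_i`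
with integral coefficients all the functions `g_{i,a}` satisfy an equation
`∑ k, A_k (jj) g ^ k s ^ (M - k) = 0` with polynomials `A_k`, where `A_M ≠ 0` has the largest
degree. -/
structure System {n k : ℕ} (D : Fin n ⊕ Fin k → ℕ)
    (g : (i : Fin n) → Fin (D (Sum.inl i) + 1) → ℍ → ℂ) : Prop where
  one : ∀ i z, g i 0 z = 1
  regular : ∀ i a, ∃ (M : ℕ) (A : Fin M → Polynomial ℂ), ∀ z : ℍ,
    g i a z ^ M + ∑ k : Fin M, (A k).eval (jj z) * g i a z ^ (k : ℕ) = 0
  cusps : ∀ i, ∃ b : Fin (D (Sum.inl i) + 1) → ℤ, ∀ a, ∃ (M : ℕ) (A : Fin (M + 1) → Polynomial ℂ),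
    (∀ k, (A k).natDegree ≤ (A (Fin.last M)).natDegree) ∧ A (Fin.last M) ≠ 0 ∧
    ∀ z : ℍ, ∑ k : Fin (M + 1), (A k).eval (jj z) *
      (g i a z ^ (k : ℕ) * (∑ a, (b a : ℂ) * g i a z) ^ (M - (k : ℕ))) = 0

/-- The index set of the integral coefficients of the forms `c(j, s, f)`, for `j = 1, …, r`,
`s = 0` (numerator), `1` (denominator), and all `f ≤ D`. -/
abbrev Idx {n k : ℕ} (N r : ℕ) (D : Fin n ⊕ Fin k → ℕ) (d : Fin r → ℕ) : Type :=
  Σ x : Fin r × Fin 2 × ((i : Fin n ⊕ Fin k) → Fin (D i + 1)), Sym (Fin (N + 1)) (d x.1)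

/-- The coefficient vectors of the rational maps from `B × S` to `ℂ^r`. -/
abbrev Coeffs {n k : ℕ} (N r : ℕ) (D : Fin n ⊕ Fin k → ℕ) (d : Fin r → ℕ) : Type :=
  Idx N r D d → ℤ

variable {N n k r : ℕ} {D : Fin n ⊕ Fin k → ℕ} {d : Fin r → ℕ}

/-- The value of the numerator (`s = 0`) or denominator (`s = 1`) of the `j`-th component at the
point `(y, z, u)`. -/
noncomputable def form (g : (i : Fin n) → Fin (D (Sum.inl i) + 1) → ℍ → ℂ) (c : Coeffs N r D d)
    (s : Fin 2) (y : Fin (N + 1) → ℂ) (z : Fin n → ℍ) (u : Fin k → ℂ) (j : Fin r) : ℂ :=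
  ∑ f : (i : Fin n ⊕ Fin k) → Fin (D i + 1), value (fun e => c ⟨(j, s, f), e⟩) y *
    ((∏ i : Fin n, g i (f (Sum.inl i)) (z i)) * ∏ w : Fin k, u w ^ (f (Sum.inr w) : ℕ))

/-- The pull-back `X_c` of `V`: the points `(y, z, u)` of `B × ℍ^n × G_m^k` at which the
multihomogenizations of all the polynomials `h` in the ideal of `V` vanish, evaluated at the values
of the numerators and denominators. -/
def pullback {κ : Type*} (G : κ → MvPolynomial (Fin (N + 1)) ℂ)
    (g : (i : Fin n) → Fin (D (Sum.inl i) + 1) → ℍ → ℂ) (c : Coeffs N r D d)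
    (V : Set (Fin r → ℂ)) : Set ((Fin (N + 1) → ℂ) × (Fin n → ℍ) × (Fin k → ℂ)) :=
  {z | OnB G z.1 ∧ (∀ w, z.2.2 w ≠ 0) ∧ ∀ h ∈ idealOf V, ∑ v ∈ h.support, h.coeff v *
    ∏ j, (form g c 0 z.1 z.2.1 z.2.2 j ^ (v j) *
      form g c 1 z.1 z.2.1 z.2.2 j ^ (h.degreeOf j - v j)) = 0}

/-- The coordinates `(jj z_1, …, jj z_n, u_1, …, u_k)`. -/
noncomputable def coords (z : Fin n → ℍ) (u : Fin k → ℂ) : Fin n ⊕ Fin k → ℂ :=
  Sum.elim (fun i => jj (z i)) u

/-- For all `ρ` every irreducible closed subset `W` of the intersection of the image of `X` in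
`Y(1)^n × G_m^k` with the union of the special subvarieties of codimension at least `ρ` satisfies
`dim W + ρ + r ≤ m + n + k + d`, and the same holds for the irreducible closed subsets of the set of
all points `(y, jj z, u)` with `(y, z, u)` in `X`, such that `(jj z, u)` is in this union.

Here `W` is more precisely an irreducible closed set of vectors, such that all vectors in `W`
outside of some hypersurface `p = 0`, which does not contain `W`, are the vectors of coordinates
(numbered in any way) of such points `(jj z, u)`, respectively `(y, jj z, u)` over the affine part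
`y_{j₀} = 1` of `P^N`. -/
def NoAtypical (Γ : Finset ℂ) (X : Set ((Fin (N + 1) → ℂ) × (Fin n → ℍ) × (Fin k → ℂ))) (m r : ℕ)
    (d : Cardinal) : Prop :=
  ∀ ρ : ℕ,
    (∀ (s : ℕ) (σ : Fin s ≃ Fin n ⊕ Fin k) (W : Set (Fin s → ℂ)) (p : MvPolynomial (Fin s) ℂ),
      (∀ w ∈ W, eval w p ≠ 0 → ∃ z ∈ X, InSpecial Γ (fun i => jj (z.2.1 i)) z.2.2 ρ ∧
        ∀ i, w i = coords z.2.1 z.2.2 (σ i)) →
      zcl W ⊆ W → (idealOf W).IsPrime → p ∉ idealOf W →
      zdim W + (ρ : Cardinal) + (r : Cardinal) ≤
        (m : Cardinal) + (n : Cardinal) + (k : Cardinal) + d) ∧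
    ∀ (j₀ : Fin (N + 1)) (s : ℕ) (σ : Fin s ≃ Fin (N + 1) ⊕ (Fin n ⊕ Fin k))
      (W : Set (Fin s → ℂ)) (p : MvPolynomial (Fin s) ℂ),
      (∀ w ∈ W, eval w p ≠ 0 →
        ∃ z ∈ X, z.1 j₀ = 1 ∧ InSpecial Γ (fun i => jj (z.2.1 i)) z.2.2 ρ ∧
          ∀ i, w i = (Sum.elim z.1 (coords z.2.1 z.2.2) : Fin (N + 1) ⊕ (Fin n ⊕ Fin k) → ℂ)
            (σ i)) →
      zcl W ⊆ W → (idealOf W).IsPrime → p ∉ idealOf W →
      zdim W + (ρ : Cardinal) + (r : Cardinal) ≤
        (m : Cardinal) + (n : Cardinal) + (k : Cardinal) + d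

/-- coordinates of the same class are isogenous -/
theorem rel_of_class {Γ : Finset ℂ} {n t : ℕ} (Z : ModularDatum Γ n t) {x : Fin n → ℂ}
    (hx : x ∈ Z.locus) {i i' : Fin n} {l : Fin t} (hi : Z.cls i = some l)
    (hi' : Z.cls i' = some l) : IsIntegral (Algebra.adjoin ℤ {x i}) (x i') := by
  obtain ⟨z, hz⟩ := hx
  obtain ⟨w, hw, hxw⟩ := (hz i).2 l hi
  obtain ⟨w', hw', hxw'⟩ := (hz i').2 l hi'
  rw [hxw, hxw']
  have hdet := Z.det_pos i
  have hdet' := Z.det_pos i'
  rw [Matrix.det_fin_two] at hdet hdet'
  set a := Z.mat i 0 0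
  set b := Z.mat i 0 1
  set c := Z.mat i 1 0
  set d := Z.mat i 1 1
  set a' := Z.mat i' 0 0
  set b' := Z.mat i' 0 1
  set c' := Z.mat i' 1 0
  set d' := Z.mat i' 1 1
  have hn := denom_ne (z := z l) hdet
  apply isogenous_integral w w' (a' * d - b' * c) (-(a' * b) + b' * a) (c' * d - d' * c)
    (-(c' * b) + d' * a)
  · have : (a' * d - b' * c) * (-(c' * b) + d' * a) - (-(a' * b) + b' * a) * (c' * d - d' * c) =
        (a * d - b * c) * (a' * d' - b' * c') := by ring
    rw [this]
    exact mul_pos hdet hdet'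
  · have key : (w' : ℂ) * (((c' * d - d' * c : ℤ) : ℂ) * w + ((-(c' * b) + d' * a : ℤ) : ℂ)) *
        ((c : ℂ) * z l + d) =
        (((a' * d - b' * c : ℤ) : ℂ) * w + ((-(a' * b) + b' * a : ℤ) : ℂ)) *
        ((c : ℂ) * z l + d) := by
      push_cast
      linear_combination ((w' : ℂ) * ((c' : ℂ) * d - d' * c) - ((a' : ℂ) * d - b' * c)) * hw +
        ((a : ℂ) * d - b * c) * hw'
    exact mul_right_cancel₀ hn key

/-- scaling of the coordinates of the base -/
theorem scale_mem {κ : Type*} {G : κ → MvPolynomial (Fin (N + 1)) ℂ}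
    (hhom : ∀ k, ∃ e, (G k).IsHomogeneous e)
    {g : (i : Fin n) → Fin (D (Sum.inl i) + 1) → ℍ → ℂ} {c : Coeffs N r D d}
    {V : Set (Fin r → ℂ)} {y : Fin (N + 1) → ℂ} {z : Fin n → ℍ} {u : Fin k → ℂ}
    (h : (y, z, u) ∈ pullback G g c V) {a : ℂ} (ha : a ≠ 0) :
    (a • y, z, u) ∈ pullback G g c V := by
  obtain ⟨⟨h1, h2⟩, hu, h3⟩ := h
  refine ⟨⟨smul_ne_zero ha h1, fun k => ?_⟩, hu, fun q hq => ?_⟩
  · obtain ⟨w, hw⟩ := hhom k
    change eval (a • y) (G k) = 0
    rw [Pool.Agent.W466.ZC.eval_smul hw, h2 k, mul_zero]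
  · have h4 : ∀ (s : Fin 2) (j : Fin r), form g c s (a • y) z u j =
        a ^ d j * form g c s y z u j := by
      intro s j
      unfold form
      rw [Finset.mul_sum]
      refine Finset.sum_congr rfl fun f _ => ?_
      have h5 : value (fun e => c ⟨(j, s, f), e⟩) (a • y) =
          a ^ d j * value (fun e => c ⟨(j, s, f), e⟩) y :=
        Pool.Agent.W466.ZP.ev_smul (fun e => c ⟨(j, s, f), e⟩) a y
      rw [h5, mul_assoc]
    have h5 := Pool.Agent.TH971.SR.homV_scale (fun j => form g c 0 y z u j)
      (fun j => form g c 1 y z u j) (fun j => a ^ d j) q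
    have h6 : Pool.Agent.TH971.SP.homV (fun j => form g c 0 y z u j)
        (fun j => form g c 1 y z u j) q = 0 := h3 q hq
    rw [h6, mul_zero] at h5
    have h7 : Pool.Agent.TH971.SP.homV (fun j => form g c 0 (a • y) z u j)
        (fun j => form g c 1 (a • y) z u j) q = 0 := by
      rw [← h5]
      congr 1
      · funext j
        exact h4 0 j
      · funext j
        exact h4 1 j
    exact h7

/-- Let `B` be any projective variety of dimension at most `m` over the algebraic numbers, and `g`
any functions as above. For every irreducible `V ⊂ ℂ^r`, all `D` and all degrees `d_j` and every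
finite set `Γ`, in every residue class modulo any `Q₀` and in every box `H u + [-ε H, ε H]` there is
a positive proportion of integer vectors `c` for which the subvariety `V_c` of the mixed Shimura
variety given by the correspondence `X_c ⊆ B × S` has no atypical intersections. -/
theorem result {κ : Type} {N n k : ℕ} (m r : ℕ) (G : κ → MvPolynomial (Fin (N + 1)) ℂ)
    (hhom : ∀ k, ∃ e, (G k).IsHomogeneous e) (halg : ∀ k s, IsAlgebraic ℚ ((G k).coeff s))
    (hdim : DimLE G m) (V : Set (Fin r → ℂ)) (hV : (idealOf V).IsPrime)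
    (hk : 0 < k) (D : Fin n ⊕ Fin k → ℕ) (hD : ∀ w, 0 < D (Sum.inr w))
    (g : (i : Fin n) → Fin (D (Sum.inl i) + 1) → ℍ → ℂ) (hg : System D g)
    (d : Fin r → ℕ) (Γ : Finset ℂ)
    (Q₀ : ℕ) (hQ₀ : 0 < Q₀) (c₀ : Coeffs N r D d) (u : Idx N r D d → ℝ) (ε : ℝ) (hε : 0 < ε) :
    ∃ δ : ℝ, 0 < δ ∧ ∀ᶠ H : ℕ in Filter.atTop,
      δ * (H : ℝ) ^ (Fintype.card (Idx N r D d)) ≤
        Nat.card {c : Coeffs N r D d // (∀ i, |(c i : ℝ) - H * u i| ≤ ε * H) ∧
          (∀ i, (Q₀ : ℤ) ∣ c i - c₀ i) ∧ NoAtypical Γ (pullback G g c V) m r (zdim V)} := by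
  classical
  have hfin : Algebra.trdeg ℂ (MvPolynomial (Fin r) ℂ ⧸ idealOf V) < Cardinal.aleph0 :=
    trdeg_lt_aleph0_of_finiteType
  obtain ⟨dV, hd⟩ := Cardinal.lt_aleph0.1 hfin
  have h1 : ∃ t : Fin (m + 1) → Fin (N + 1) → ℂ, ∀ y : Fin (N + 1) → ℂ,
      (∀ k, eval y (G k) = 0) → (∀ b, ∑ j, t b j * y j = 0) → y = 0 := by
    obtain ⟨t, ht⟩ := hdim
    refine ⟨t, fun y hy hb => ?_⟩
    by_contra h0
    obtain ⟨b, hb'⟩ := ht y ⟨h0, hy⟩
    exact hb' (hb b)
  choose M₁ A₁ hB₁ using hg.regular
  choose b hb using hg.cusps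
  choose M₂ A₂ hA₂ hA₂0 hB₂ using hb
  obtain ⟨K, Q, Gt, hK, hQ, hmain⟩ := Pool.Agent.TH971.SR.exists_classX D hD b M₁ A₁ M₂ A₂ hA₂
    hA₂0 d (idealOf V) hd G hhom halg h1 Γ Q₀ hQ₀ c₀
  refine pos_proportion' Q hQ Gt _ (fun c hc => ?_) u ε hε
  obtain ⟨hc0, hkey⟩ := hmain c hc
  refine ⟨hc0, ?_⟩
  have hform : ∀ (s : Fin 2) (y : Fin (N + 1) → ℂ) (z : Fin n → ℍ) (u : Fin k → ℂ) (j : Fin r),
      Pool.Agent.TH971.SR.mvX (fun e' => Pool.Agent.W466.ZP.ev (fun u => c ⟨(j, s, e'), u⟩) y)
        (Pool.Agent.TH971.SR.gX (fun i a => g i a (z i)) u) = form g c s y z u j := by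
    intro s y z u j
    unfold form Pool.Agent.TH971.SR.mvX
    refine Finset.sum_congr rfl fun f _ => ?_
    rw [Fintype.prod_sum_type]
    rfl
  have hkey' : ∀ (z : Fin n → ℍ) (u : Fin k → ℂ) (ρ : ℕ), InSpecial Γ (fun i => jj (z i)) u ρ →
      ∀ (y : Fin (N + 1) → ℂ) (j0 : Fin (N + 1)), y j0 = 1 → (y, z, u) ∈ pullback G g c V →
      ∀ (T1 : Finset (Fin (N + 1))) (T2 : Finset (Fin n ⊕ Fin k)),
      AlgebraicIndependent K (Sum.elim (fun j : T1 => y j) (fun j : T2 => coords z u j)) →
      T1.card + T2.card + ρ + r ≤ m + n + k + dV := by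
    rintro z u ρ ⟨t, Z, Λ, η, hη, hρ, hx, hu⟩ y j0 hj0 hX T1 T2 hT
    have hrn : t ≤ n := by
      choose f hf using Z.surj
      have hf' : Function.Injective f := by
        intro l l' h
        have h2 := hf l
        rw [h, hf l'] at h2
        exact (Option.some_injective _ h2).symm
      simpa using Fintype.card_le_of_injective f hf'
    have h3 := hkey t Z.cls (fun i => jj (z i)) hrn (fun i hi => by
        obtain ⟨z', hz'⟩ := hx
        have h6 : jj (z i) = Z.const i := (hz' i).1 hi
        rw [h6]
        exact (Z.allowed i).isIntegral) (fun i i' l hi hi' => rel_of_class Z hx hi hi')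
      (fun i a => g i a (z i)) (fun i => hg.one i _) (fun i a => hB₁ i a _)
      (fun i a => hB₂ i a _) u Λ η hη hu.2 y j0 hj0 hX.1.2
      (fun q hq => by
        have h6 := hX.2.2 q hq
        have h7 : Pool.Agent.TH971.SP.homV (fun j => form g c 0 y z u j)
          (fun j => form g c 1 y z u j) q = 0 := h6
        rw [funext fun j => hform 0 y z u j, funext fun j => hform 1 y z u j]
        exact h7) T1 T2 hT
    omega
  have hfinal : ∀ {T q : ℕ} {z : Cardinal}, z ≤ (T : Cardinal) → T + q + r ≤ m + n + k + dV →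
      z + (q : Cardinal) + (r : Cardinal) ≤
        (m : Cardinal) + (n : Cardinal) + (k : Cardinal) + zdim V := by
    intro T q z hz h
    calc z + (q : Cardinal) + (r : Cardinal)
        ≤ (T : Cardinal) + (q : Cardinal) + (r : Cardinal) := by gcongr
      _ = ((T + q + r : ℕ) : Cardinal) := by push_cast; rfl
      _ ≤ ((m + n + k + dV : ℕ) : Cardinal) := by exact_mod_cast h
      _ = (m : Cardinal) + (n : Cardinal) + (k : Cardinal) + zdim V := by
        rw [zdim, hd]; push_cast; rfl
  intro ρ
  constructor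
  · intro s σ W p hW hcl hprime hp
    obtain ⟨w, hwW, hpw, T, hT, hdimW⟩ :=
      Pool.Agent.W282.LF.generic_dim_open K W hprime hcl p hp
    obtain ⟨⟨y, z, v⟩, hyX, hwS, hwz⟩ := hW w hwW hpw
    obtain ⟨j0, hj0⟩ : ∃ j0, y j0 ≠ 0 := by
      by_contra hcon
      push Not at hcon
      exact hyX.1.1 (funext hcon)
    refine hfinal hdimW ?_
    set T' : Finset (Fin n ⊕ Fin k) := T.map σ.toEmbedding with hT'
    have hTT : ∀ j, j ∈ T' → σ.symm j ∈ T := by
      intro j hj
      obtain ⟨t, ht, h⟩ := Finset.mem_map.1 hj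
      rw [← h]
      simpa using ht
    have h3 := hkey' z v ρ hwS ((y j0)⁻¹ • y) j0 (by
      rw [Pi.smul_apply, smul_eq_mul, inv_mul_cancel₀ hj0]) (scale_mem hhom hyX (inv_ne_zero hj0))
      ∅ T' (by
        let g : ((∅ : Finset (Fin (N + 1))) ⊕ T') → T := Sum.elim
          (fun j => absurd j.2 (Finset.notMem_empty _)) (fun j => ⟨σ.symm j, hTT _ j.2⟩)
        have hg : Function.Injective g := by
          rintro (x | x) (y | y) h
          · exact absurd x.2 (Finset.notMem_empty _)
          · exact absurd x.2 (Finset.notMem_empty _)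
          · exact absurd y.2 (Finset.notMem_empty _)
          · have h1 := congrArg Subtype.val h
            rw [Subtype.ext (σ.symm.injective h1)]
        have h5 := hT.comp g hg
        convert h5 using 1
        funext j
        rcases j with j | j
        · exact absurd j.2 (Finset.notMem_empty _)
        · change coords z v j = w (σ.symm j)
          rw [hwz, Equiv.apply_symm_apply])
    rw [Finset.card_empty, zero_add, hT', Finset.card_map] at h3
    exact h3
  · intro j₀ s σ W p hW hcl hprime hp
    obtain ⟨w, hwW, hpw, T, hT, hdimW⟩ :=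
      Pool.Agent.W282.LF.generic_dim_open K W hprime hcl p hp
    obtain ⟨⟨y, z, v⟩, hzX, hzj, hzS, hwz⟩ := hW w hwW hpw
    set T' : Finset (Fin (N + 1) ⊕ (Fin n ⊕ Fin k)) := T.map σ.toEmbedding with hT'
    have hTT : ∀ j, j ∈ T' → σ.symm j ∈ T := by
      intro j hj
      obtain ⟨t, ht, h⟩ := Finset.mem_map.1 hj
      rw [← h]
      simpa using ht
    let g : T'.toLeft ⊕ T'.toRight → T := Sum.elim
      (fun j => ⟨σ.symm (Sum.inl j), hTT _ (Finset.mem_toLeft.1 j.2)⟩)
      (fun j => ⟨σ.symm (Sum.inr j), hTT _ (Finset.mem_toRight.1 j.2)⟩)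
    have hg : Function.Injective g := by
      rintro (x | x) (y | y) h
      · have h1 := congrArg Subtype.val h
        have h2 := Sum.inl_injective (σ.symm.injective h1)
        rw [Subtype.ext h2]
      · have h1 := congrArg Subtype.val h
        have h2 := σ.symm.injective h1
        exact absurd h2 Sum.inl_ne_inr
      · have h1 := congrArg Subtype.val h
        have h2 := σ.symm.injective h1
        exact absurd h2 Sum.inr_ne_inl
      · have h1 := congrArg Subtype.val h
        have h2 := Sum.inr_injective (σ.symm.injective h1)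
        rw [Subtype.ext h2]
    refine hfinal hdimW ?_
    have h3 := hkey' z v ρ hzS y j₀ hzj hzX T'.toLeft T'.toRight (by
        have h5 := hT.comp g hg
        convert h5 using 1
        funext j
        rcases j with j | j
        · change y j = w (σ.symm (Sum.inl j))
          rw [hwz, Equiv.apply_symm_apply]
          rfl
        · change coords z v j = w (σ.symm (Sum.inr j))
          rw [hwz, Equiv.apply_symm_apply]
          rfl)
    have hT2 : T'.toLeft.card + T'.toRight.card = T.card := by
      rw [Finset.card_toLeft_add_card_toRight, hT', Finset.card_map]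
    rw [hT2] at h3
    exact h3

end Pool.Agent.Results.MP_a325a5_ag.RandomMixedCorrespondences
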