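import Pool.Agent.TH971.RF.D2
import Pool.Agent.W282.LF.Top
import Pool.Agent.W356.RW.Cnt

/-!
# MP_a325a5_ag: Zilber-Pink for a positive proportion of all maps from an arbitrary projective variety
to the mixed Shimura variety `ℰ^q × Y(1)^n × G_m^k`

`X = ℰ^q × Y(1)^n × G_m^k` is the mixed Shimura variety of dimension `n + 1 + q + k` which
parametrizes `n + 1` elliptic curves `E_0, …, E_n`, `q` points `P_1, …, P_q` on the curve `E_0`, and
`k` nonzero numbers `u_1, …, u_k` (`ℰ^q` is the `q`-th fibre power of the universal elliptic curve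
over `Y(1)`).

`B ⊆ P^N` is an arbitrary projective variety over the algebraic numbers: the set of zeros of a
family `G` of forms with algebraic coefficients; `HasDim G m` says that `B` has dimension `m`.
Fix positive integers `e_0, …, e_n`, `R ≥ q` and `c_1, …, c_k`, and numbers `d_l ≥ 0` for
`l = 1, …, q`. A `Family` consists of forms in `y_0, …, y_N` with integral coefficients:

* `A_i` of degree `4 e_i` and `B_i` of degree `6 e_i`, which give the `n + 1` families of elliptic
  curves `E_i : y² = x³ + A_i x + B_i` over `B`;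
* `F_{l,h}` of degree `d_l + 2 e_0 h`, `h = 0, …, R`. They give the multisection `P_l` of the family
  `E_0` defined by `F_{l,0} x^R + F_{l,1} x^(R-1) + … + F_{l,R} = 0`;
* `a_w, b_w` of degree `c_w`, which give the rational function `u_w = a_w / b_w` on `B`.

Together they give an algebraic (multivalued) map `Φ` from `B` to `X`.

The special subvarieties of `X` are as follows. The image of a special subvariety `S` in `Y(1)^(n+1)`
is a special subvariety `Z` of dimension `r` (`H294ZP.SpecialDatum (n + 1) r`): `Z.locus` is the set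
of the points `x` with `x_i = j (τ_i)` (`τ_i` a fixed CM point) for the constant coordinates, and
`x_i = j (g_i z_k)` for the coordinates of class `k`, where `z_1, …, z_r` are free in the upper half
plane and `g_i` is a fixed integral matrix of positive determinant. And `S` is given in the
semiabelian scheme `ℰ^q × G_m^k` over `Z` by a module `Λ` of relations between the points
`P_1, …, P_q`, up to torsion, over the ring of endomorphisms of `E_0` (over `Z`; this is `ℤ` or, if
`E_0` is constant with complex multiplication on `Z`, an order in an imaginary quadratic field), and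
by a group `M ⊆ ℤ^k` of multiplicative relations between the `u_w`, up to roots of unity. The
codimension of `S` is `(n + 1 - r) + rank Λ + rank M`.

`MeetsSpecial f y ρ` says that a point of `X` over `y ∈ B` is in a special subvariety of codimension
at least `ρ`, i.e. that it is in the set `X^[≥ ρ]`.

Theorem: for a positive proportion of all families with coefficients in a box, as the box grows in
all directions (the bounds for the coefficients of each form are arbitrary numbers `≥ H₀`) the
following is true. Any `m` of the `n + 1 + q + k` coordinates of `Φ` (`coordinate`) are algebraically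
independent at some point of `B`; in particular `Φ(B)` has dimension `m`, if `m ≤ dim X`. And every
subvariety of `B` which is mapped into the union `X^[≥ ρ]` of all special subvarieties of codimension
at least `ρ` has dimension at most `m - ρ`, for all `ρ`. As `m = dim Φ(B)`, this implies
`dim W ≤ dim Φ(B) + dim S - dim X` for all special subvarieties `S` and all subvarieties `W` of
`Φ(B) ∩ S`: there are no atypical intersections at all. In particular `Φ(B)` does not meet
`X^[> m]`.
-/

namespace Pool.Agent.Results.MP_a325a5_ag.RandomMixedShimura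

open H294ZP MvPolynomial Pool.Agent.W282.ZP

/-- The value at `y` of the form of degree `d` with integral coefficients `c u`, the monomials of
degree `d` in `y_0, …, y_N` being indexed by the multisets `u` of size `d`. -/
noncomputable def value {N d : ℕ} (c : Sym (Fin (N + 1)) d → ℤ) (y : Fin (N + 1) → ℂ) : ℂ :=
  ∑ u : Sym (Fin (N + 1)) d, (c u : ℂ) * ((u : Multiset (Fin (N + 1))).map y).prod

/-- `y` is a vector of homogeneous coordinates of a point of the projective algebraic set `B`
defined by the forms `G k`. -/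
def OnB {N : ℕ} {κ : Type*} (G : κ → MvPolynomial (Fin (N + 1)) ℂ) (y : Fin (N + 1) → ℂ) : Prop :=
  y ≠ 0 ∧ ∀ k, eval y (G k) = 0

/-- The projective algebraic set defined by the forms `G k` has dimension `m`: it does not meet some
linear subspace defined by `m + 1` linear forms, and it meets every linear subspace defined by `m`
linear forms. -/
def HasDim {N : ℕ} {κ : Type*} (G : κ → MvPolynomial (Fin (N + 1)) ℂ) (m : ℕ) : Prop :=
  (∃ t : Fin (m + 1) → Fin (N + 1) → ℂ, ∀ y, OnB G y → ∃ b, ∑ j, t b j * y j ≠ 0) ∧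
    ∀ t : Fin m → Fin (N + 1) → ℂ, ∃ y, OnB G y ∧ ∀ b, ∑ j, t b j * y j = 0

/-- The coefficients of the forms `A_i, B_i` (`n + 1` Weierstrass equations
`y² = x³ + A_i x + B_i`), of the forms `F_{l,h}` (`q` multisections `∑ F_{l,h} x^(R-h) = 0` of the
family `E_0`), and of the forms `a_w, b_w` (`k` functions `u_w = a_w / b_w`). -/
structure Family (N : ℕ) {n q k : ℕ} (e : Fin (n + 1) → ℕ) (R : ℕ) (d : Fin q → ℕ)
    (c : Fin k → ℕ) where
  /-- the forms `A_i` -/
  A : ∀ i, Sym (Fin (N + 1)) (4 * e i) → ℤ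
  /-- the forms `B_i` -/
  B : ∀ i, Sym (Fin (N + 1)) (6 * e i) → ℤ
  /-- the forms `F_{l,h}` -/
  F : ∀ (l : Fin q) (h : Fin (R + 1)), Sym (Fin (N + 1)) (d l + 2 * e 0 * h) → ℤ
  /-- the forms `a_w` -/
  a : ∀ w, Sym (Fin (N + 1)) (c w) → ℤ
  /-- the forms `b_w` -/
  b : ∀ w, Sym (Fin (N + 1)) (c w) → ℤ

variable {N n q k : ℕ} {e : Fin (n + 1) → ℕ} {R : ℕ} {d : Fin q → ℕ} {c : Fin k → ℕ}

/-- The families with bounded coefficients: the bounds are `hA i` for `A_i`, `hB i` for `B_i`,
`hF l h` for `F_{l,h}`, `ha w` for `a_w` and `hb w` for `b_w`. -/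
def box (N : ℕ) {n q k : ℕ} (e : Fin (n + 1) → ℕ) (R : ℕ) (d : Fin q → ℕ)
    (c : Fin k → ℕ) (hA hB : Fin (n + 1) → ℕ) (hF : Fin q → Fin (R + 1) → ℕ)
    (ha hb : Fin k → ℕ) : Set (Family N e R d c) :=
  {f | ((∀ i u, |f.A i u| ≤ hA i) ∧ ∀ i u, |f.B i u| ≤ hB i) ∧
    (∀ l h u, |f.F l h u| ≤ hF l h) ∧ (∀ w u, |f.a w u| ≤ ha w) ∧ ∀ w u, |f.b w u| ≤ hb w}

/-- The discriminant `4 A_i³ + 27 B_i²`. -/
noncomputable def disc (f : Family N e R d c) (i : Fin (n + 1)) (y : Fin (N + 1) → ℂ) : ℂ :=
  4 * value (f.A i) y ^ 3 + 27 * value (f.B i) y ^ 2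

/-- The curve `y² = x³ + a x + b` over the complex numbers. -/
abbrev curve (a b : ℂ) : WeierstrassCurve.Affine ℂ := ⟨0, 0, 0, a, b⟩

/-- The `x`-coordinate of a point of the curve (`0` for the origin). -/
def xCoord {a b : ℂ} : (curve a b).Point → ℂ
  | .zero => 0
  | .some x _ _ => x

/-- The map `φ` of the points of the curve `y² = x³ + a x + b` to itself is given on the
`x`-coordinates by a rational function `u / w` with `u(x) / w(x) ~ x / c²` for `x → ∞`. -/
def ActsByRational {a b : ℂ} (c : ℂ) (φ : (curve a b).Point → (curve a b).Point) : Prop :=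
  ∃ u w : Polynomial ℂ, w ≠ 0 ∧ u.natDegree = w.natDegree + 1 ∧
    w.leadingCoeff = c ^ 2 * u.leadingCoeff ∧
    ∀ P : (curve a b).Point, P ≠ 0 → w.eval (xCoord P) ≠ 0 →
      φ P ≠ 0 ∧ xCoord (φ P) * w.eval (xCoord P) = u.eval (xCoord P)

/-- A ring of endomorphisms of the curve `y² = x³ + a x + b`: a ring `O` of complex numbers which
acts on the group of points. For an endomorphism which is multiplication by `λ` on the tangent space
at the origin the number `λ` is an integer or an imaginary quadratic integer, in particular it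
satisfies an equation `λ² - T λ + N = 0` with integers `T, N`, and if it is not an integer, the
`x`-coordinate of the image of a point is a rational function `u / w` of the `x`-coordinate of the
point, with `u(x) / w(x) ~ x / λ²` for `x → ∞`. (The integers in `O` act by multiplication, as `act`
is a homomorphism of rings.) -/
structure EndRing (a b : ℂ) where
  /-- the ring -/
  O : Subring ℂ
  /-- its action on the points -/
  act : O →+* AddMonoid.End (curve a b).Point
  quad : ∀ c : O, ∃ T N : ℤ, (c : ℂ) ^ 2 - T * c + N = 0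
  rat : ∀ c : O, (∀ n : ℤ, (c : ℂ) ≠ n) → ActsByRational c (act c)

/-- The linear combination `∑ c_l (P_l)` of points with endomorphisms `c_l` as coefficients. -/
noncomputable def EndRing.comb {a b : ℂ} (E : EndRing a b) {q : ℕ} (c : Fin q → E.O)
    (P : Fin q → (curve a b).Point) : (curve a b).Point :=
  ∑ l, E.act (c l) (P l)

/-- The coefficients `c_1, …, c_q` are a relation between the points `P_1, …, P_q` up to torsion:
the point `∑ c_l (P_l)` is a torsion point. -/
def EndRing.Relation {a b : ℂ} (E : EndRing a b) {q : ℕ} (c : Fin q → E.O)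
    (P : Fin q → (curve a b).Point) : Prop :=
  ∃ t : ℕ, 0 < t ∧ t • E.comb c P = 0

/-- The point `(P_1, …, P_q)` of the `q`-th power of the curve is in an algebraic subgroup of
codimension at least `ρ`: the module of the relations between the `P_l` over some ring of
endomorphisms of the curve has rank at least `ρ`, it has `ρ` linearly independent elements. -/
def InSubgroup {a b : ℂ} {q : ℕ} (P : Fin q → (curve a b).Point) (ρ : ℕ) : Prop :=
  ∃ (E : EndRing a b) (c : Fin ρ → Fin q → E.O),
    LinearIndependent ℂ (fun i l => (c i l : ℂ)) ∧ ∀ i, E.Relation (c i) P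

/-- The point `u` of `G_m^k` is in an algebraic subgroup of codimension at least `ρ`: there are `ρ`
linearly independent relations `∏ u_w^(a_w) = root of unity`. -/
def InSubtorus {k : ℕ} (u : Fin k → ℂ) (ρ : ℕ) : Prop :=
  ∃ a : Fin ρ → Fin k → ℤ, LinearIndependent ℤ a ∧
    ∀ i, ∃ t : ℕ, 0 < t ∧ (∏ w, u w ^ a i w) ^ t = 1

/-- The point `P` of the fibre of `E_0` over `y` is on the `l`-th multisection:
`∑ F_{l,h}(y) x(P)^(R-h) = 0`, or `P` is the origin and `F_{l,0}(y) = 0`. -/
def OnMultisection (f : Family N e R d c) (l : Fin q) (y : Fin (N + 1) → ℂ) {a b : ℂ}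
    (P : (curve a b).Point) : Prop :=
  (P = 0 ∧ value (f.F l 0) y = 0) ∨
    (P ≠ 0 ∧ ∑ h : Fin (R + 1), value (f.F l h) y * xCoord P ^ (R - (h : ℕ)) = 0)

/-- A point of the fibre of `ℰ^q` given by `P_1, …, P_q` over `y` is in an algebraic subgroup of
codimension at least `ρ` of the fibre `E_0^q`. -/
def PointsIn (f : Family N e R d c) (y : Fin (N + 1) → ℂ) (ρ : ℕ) : Prop :=
  ∃ P : Fin q → (curve (value (f.A 0) y) (value (f.B 0) y)).Point,
    (∀ l, OnMultisection f l y (P l)) ∧ InSubgroup P ρ

/-- Some point of `X` over `y ∈ B` is in a special subvariety of codimension at least `ρ`: for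
suitable values `x_i = 1728 · 4 A_i³ / (4 A_i³ + 27 B_i²)` of the `j`-invariants, `P_l` of the
multisections and `u_w = a_w / b_w` of the functions at `y` the point `x` is in a special subvariety
`Z` of `Y(1)^(n+1)` of dimension `r`, the points `P_l` are in an algebraic subgroup of `E_0^q` of
codimension `ρ₁`, the numbers `u_w` are in an algebraic subgroup of `G_m^k` of codimension `ρ₂`, and
`(n + 1 - r) + ρ₁ + ρ₂ ≥ ρ`. (If the fibre over `y` is singular, or if numerator and denominator of a
function are zero at `y`, all values which satisfy the equations are allowed.) -/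
def MeetsSpecial (f : Family N e R d c) (y : Fin (N + 1) → ℂ) (ρ : ℕ) : Prop :=
  ∃ (r : ℕ) (Z : SpecialDatum (n + 1) r) (ρ₁ ρ₂ : ℕ), ρ + r ≤ n + 1 + ρ₁ + ρ₂ ∧
    (∃ x ∈ Z.locus, ∀ i, disc f i y * x i = 6912 * value (f.A i) y ^ 3) ∧ PointsIn f y ρ₁ ∧
    ∃ u : Fin k → ℂ, (∀ w, u w ≠ 0) ∧ (∀ w, value (f.b w) y * u w = value (f.a w) y) ∧
      InSubtorus u ρ₂

/-- The coordinates of the point of `X` over `y` given by the points `P_l`: the `j`-invariants
`1728 · 4 A_i³ / (4 A_i³ + 27 B_i²)`, the functions `x(P_l)³ / B_0` on the universal elliptic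
curve, and `u_w = a_w / b_w`. -/
noncomputable def coordinate (f : Family N e R d c) (y : Fin (N + 1) → ℂ) {a b : ℂ}
    (P : Fin q → (curve a b).Point) : (Fin (n + 1) ⊕ Fin q) ⊕ Fin k → ℂ :=
  Sum.elim (Sum.elim (fun i => 6912 * value (f.A i) y ^ 3 / disc f i y)
    (fun l => xCoord (P l) ^ 3 / value (f.B 0) y)) (fun w => value (f.a w) y / value (f.b w) y)

/-- The fibres over `y` are elliptic curves and the coordinates are defined at `y`. -/
def Regular (f : Family N e R d c) (y : Fin (N + 1) → ℂ) : Prop :=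
  (∀ i, disc f i y ≠ 0) ∧ (∀ i, value (f.B i) y ≠ 0) ∧
    (∀ w, value (f.a w) y ≠ 0 ∧ value (f.b w) y ≠ 0) ∧ ∀ l, value (f.F l 0) y ≠ 0

/-- Any `m` of the `n + 1 + q + k` coordinates are algebraically independent at some point `y` of `B`
(where the fibres are elliptic curves, and the coordinates are defined), for all choices of the
values `P_l` of the multisections at this point. -/
def FullDimension {κ : Type*} (G : κ → MvPolynomial (Fin (N + 1)) ℂ) (m : ℕ)
    (f : Family N e R d c) : Prop :=
  ∀ ψ : Fin m → (Fin (n + 1) ⊕ Fin q) ⊕ Fin k, Function.Injective ψ → ∃ y, OnB G y ∧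
    Regular f y ∧
    (∃ P : Fin q → (curve (value (f.A 0) y) (value (f.B 0) y)).Point,
      ∀ l, OnMultisection f l y (P l)) ∧
    ∀ P : Fin q → (curve (value (f.A 0) y) (value (f.B 0) y)).Point,
      (∀ l, OnMultisection f l y (P l)) →
      AlgebraicIndependent ℚ (fun i => coordinate f y P (ψ i))

/-- For every `ρ` the set of the points of `B` which are mapped into special subvarieties of
codimension at least `ρ` has dimension at most `m - ρ`: the transcendence degree of these points is
at most `m - ρ`, and every irreducible closed subset `W` of the affine cone over `B` such that all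
its points outside of some hypersurface `p = 0`, which does not contain `W`, have this property, has
dimension at most `m - ρ + 1`. -/
def NoAtypical {κ : Type*} (G : κ → MvPolynomial (Fin (N + 1)) ℂ) (m : ℕ)
    (f : Family N e R d c) : Prop :=
  ∀ ρ : ℕ,
    (∀ y, OnB G y → MeetsSpecial f y ρ → ∀ (j₀ : Fin (N + 1)) (T : Finset (Fin (N + 1))),
      AlgebraicIndependent ℚ (fun j : T => y j / y j₀) → T.card + ρ ≤ m) ∧
    ∀ (W : Set (Fin (N + 1) → ℂ)) (p : MvPolynomial (Fin (N + 1)) ℂ),
      (∀ y ∈ W, eval y p ≠ 0 → OnB G y ∧ MeetsSpecial f y ρ) → zcl W ⊆ W → (idealOf W).IsPrime →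
      p ∉ idealOf W → zdim W + (ρ : Cardinal) ≤ ((m + 1 : ℕ) : Cardinal)

/-- the families as in the helper files -/
def toM (f : Family N e R d c) :
    Pool.Agent.TH971.RF.FamM N e (fun _ => R) (fun _ : Fin q => 0) d c :=
  ⟨f.A, f.B, f.F, f.a, f.b⟩

theorem toM_bij : Function.Bijective (toM (N := N) (e := e) (R := R) (d := d) (c := c)) :=
  ⟨fun f f' h => by
    cases f
    cases f'
    simpa [toM] using h, fun f => ⟨⟨f.A, f.B, f.F, f.a, f.b⟩, rfl⟩⟩

theorem xCoord_eq {a b : ℂ} (P : (curve a b).Point) :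
    xCoord P = Pool.Agent.W466.EP.xx (A := a) (B := b) P := by
  rcases P with _ | ⟨x, y, h⟩
  · rfl
  · rfl

theorem onM_iff (f : Family N e R d c) (l : Fin q) (y : Fin (N + 1) → ℂ) {a b : ℂ}
    (P : (curve a b).Point) : OnMultisection f l y P ↔
      Pool.Agent.TH971.RF.OnM (f.F l) y (A := a) (B := b) P := by
  unfold OnMultisection Pool.Agent.TH971.RF.OnM
  rw [xCoord_eq]
  exact Iff.rfl

/-- the ring of endomorphisms as in the helper files -/
def toE {a b : ℂ} (E : EndRing a b) : Pool.Agent.TH971.RF.EndRing a b where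
  O := E.O
  act := E.act
  quad := E.quad
  rat := by
    intro c hc
    obtain ⟨u, w, h1, h2, h3, h4⟩ := E.rat c hc
    refine ⟨u, w, h1, h2, h3, fun P hP hw => ?_⟩
    have e1 : xCoord (a := a) (b := b) P = Pool.Agent.W466.EP.xx (A := a) (B := b) P := xCoord_eq P
    have hw' : w.eval (xCoord (a := a) (b := b) P) ≠ 0 := by rw [e1]; exact hw
    have h5 := h4 P hP hw'
    have e2 : xCoord (a := a) (b := b) (E.act c P) =
      Pool.Agent.W466.EP.xx (A := a) (B := b) (E.act c P) := xCoord_eq _
    rw [e1, e2] at h5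
    exact h5

/-- the ring of integers -/
noncomputable def intRing (a b : ℂ) : Pool.Agent.TH971.RF.EndRing a b where
  O := (Int.castRingHom ℂ).range
  act := (Int.castRingHom (AddMonoid.End (curve a b).Point)).comp
    ((RingEquiv.ofBijective (Int.castRingHom ℂ).rangeRestrict
      ⟨fun x y h => Int.cast_injective (α := ℂ) (congrArg Subtype.val h),
        (Int.castRingHom ℂ).rangeRestrict_surjective⟩).symm : _ →+* ℤ)
  quad := by
    rintro ⟨c, n, rfl⟩
    refine ⟨n, 0, ?_⟩
    simp only [eq_intCast]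
    push_cast
    ring
  rat := by
    rintro ⟨c, n, rfl⟩ h
    exact absurd rfl (h n)

/-- the module of the relations -/
def relMod {a b : ℂ} (E : EndRing a b) {q : ℕ} (P : Fin q → (curve a b).Point) :
    Submodule E.O (Fin q → E.O) where
  carrier := {c | E.Relation c P}
  zero_mem' := ⟨1, one_pos, by simp [EndRing.comb]⟩
  add_mem' := by
    rintro c c' ⟨t, ht, h⟩ ⟨t', ht', h'⟩
    refine ⟨t * t', Nat.mul_pos ht ht', ?_⟩
    have e1 : E.comb (c + c') P = E.comb c P + E.comb c' P := by
      unfold EndRing.comb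
      rw [← Finset.sum_add_distrib]
      refine Finset.sum_congr rfl fun l _ => ?_
      rw [Pi.add_apply, map_add]
      rfl
    rw [e1, nsmul_add, mul_nsmul, h, mul_comm t t', mul_nsmul, h', nsmul_zero, nsmul_zero, add_zero]
  smul_mem' := by
    rintro r c ⟨t, ht, h⟩
    refine ⟨t, ht, ?_⟩
    have e1 : E.comb (r • c) P = E.act r (E.comb c P) := by
      simp [EndRing.comb, map_sum]
    rw [e1, ← map_nsmul, h, map_zero]

theorem le_finrank {a b : ℂ} (E : EndRing a b) {q ρ : ℕ} (P : Fin q → (curve a b).Point)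
    (c : Fin ρ → Fin q → E.O) (hc : LinearIndependent ℂ (fun i l => (c i l : ℂ)))
    (h : ∀ i, E.Relation (c i) P) : ρ ≤ Module.finrank E.O (relMod E P) := by
  have h1 : LinearIndependent E.O (fun i => (⟨c i, h i⟩ : relMod E P)) := by
    rw [Fintype.linearIndependent_iff] at hc ⊢
    intro g hg i
    have h2 : ∑ i, (g i : ℂ) • (fun l => (c i l : ℂ)) = 0 := by
      funext l
      have h3 := congrArg (fun v : relMod E P => (((v : Fin q → E.O) l : E.O) : ℂ)) hg
      simpa [Finset.sum_apply] using h3
    exact_mod_cast hc _ h2 i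
  have h2 := h1.cardinal_le_rank
  have h3 : Module.rank E.O (relMod E P) < Cardinal.aleph0 := by
    refine (Submodule.rank_le _).trans_lt ?_
    rw [rank_fun']
    exact Cardinal.natCast_lt_aleph0
  have h4 := Cardinal.toNat_le_toNat h2 h3
  simpa [Module.finrank] using h4

/-- the group of the multiplicative relations -/
def relTor {k : ℕ} (u : Fin k → ℂ) (hu : ∀ w, u w ≠ 0) : Submodule ℤ (Fin k → ℤ) where
  carrier := {a | ∃ t : ℕ, 0 < t ∧ (∏ w, u w ^ a w) ^ t = 1}
  zero_mem' := ⟨1, one_pos, by simp⟩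
  add_mem' := by
    rintro a a' ⟨t, ht, h⟩ ⟨t', ht', h'⟩
    refine ⟨t * t', Nat.mul_pos ht ht', ?_⟩
    have e1 : ∏ w, u w ^ (a + a') w = (∏ w, u w ^ a w) * ∏ w, u w ^ a' w := by
      rw [← Finset.prod_mul_distrib]
      exact Finset.prod_congr rfl fun w _ => zpow_add₀ (hu w) _ _
    rw [e1, mul_pow, pow_mul, h, mul_comm t t', pow_mul, h', one_pow, one_pow, one_mul]
  smul_mem' := by
    rintro z a ⟨t, ht, h⟩
    refine ⟨t, ht, ?_⟩
    have e1 : ∏ w, u w ^ (z • a) w = (∏ w, u w ^ a w) ^ z := by
      rw [← Finset.prod_zpow]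
      refine Finset.prod_congr rfl fun w _ => ?_
      rw [Pi.smul_apply, smul_eq_mul, mul_comm, zpow_mul]
    rw [e1, ← zpow_natCast, ← zpow_mul, mul_comm z, zpow_mul, zpow_natCast, h, one_zpow]

theorem le_finrank_tor {k ρ : ℕ} (u : Fin k → ℂ) (hu : ∀ w, u w ≠ 0) (a : Fin ρ → Fin k → ℤ)
    (ha : LinearIndependent ℤ a) (h : ∀ i, ∃ t : ℕ, 0 < t ∧ (∏ w, u w ^ a i w) ^ t = 1) :
    ρ ≤ Module.finrank ℤ (relTor u hu) := by
  have h1 : LinearIndependent ℤ (fun i => (⟨a i, h i⟩ : relTor u hu)) :=
    LinearIndependent.of_comp (relTor u hu).subtype ha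
  have h2 := h1.fintype_card_le_finrank
  rwa [Fintype.card_fin] at h2

/-- For a positive proportion of all tuples of families of elliptic curves, multisections and
functions over an arbitrary projective variety `B` of dimension `m` over the algebraic numbers the
image of `B` in the mixed Shimura variety `ℰ^q × Y(1)^n × G_m^k` has full dimension and no atypical
intersections with special subvarieties; in particular it meets no special subvariety of codimension
larger than `m`. -/
theorem result {κ : Type*} (N n q k m : ℕ) (e : Fin (n + 1) → ℕ) (he : ∀ i, 0 < e i) (R : ℕ)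
    (hR : 0 < R) (hqR : q ≤ R) (d : Fin q → ℕ) (c : Fin k → ℕ) (hc : ∀ w, 0 < c w)
    (G : κ → MvPolynomial (Fin (N + 1)) ℂ) (hhom : ∀ k, ∃ e, (G k).IsHomogeneous e)
    (halg : ∀ k s, IsAlgebraic ℚ ((G k).coeff s)) (hdim : HasDim G m) :
    ∃ δ : ℝ, 0 < δ ∧ ∃ H₀ : ℕ, ∀ (hA hB : Fin (n + 1) → ℕ) (hF : Fin q → Fin (R + 1) → ℕ)
      (ha hb : Fin k → ℕ), (∀ i, H₀ ≤ hA i ∧ H₀ ≤ hB i) → (∀ l h, H₀ ≤ hF l h) →
      (∀ w, H₀ ≤ ha w ∧ H₀ ≤ hb w) →
      δ * ((box N e R d c hA hB hF ha hb).ncard : ℝ) ≤
        ((box N e R d c hA hB hF ha hb ∩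
          {f | FullDimension G m f ∧ NoAtypical G m f}).ncard : ℝ) := by
  classical
  have h1 : ∃ t : Fin (m + 1) → Fin (N + 1) → ℂ, ∀ y : Fin (N + 1) → ℂ,
      (∀ k, eval y (G k) = 0) → (∀ b, ∑ j, t b j * y j = 0) → y = 0 := by
    obtain ⟨t, ht⟩ := hdim.1
    refine ⟨t, fun y hy hb => ?_⟩
    by_contra h0
    obtain ⟨b, hb'⟩ := ht y ⟨h0, hy⟩
    exact hb' (hb b)
  have h2 : ∀ t : Fin m → Fin (N + 1) → ℂ, ∃ y : Fin (N + 1) → ℂ, y ≠ 0 ∧
      (∀ k, eval y (G k) = 0) ∧ ∀ i, ∑ j, t i j * y j = 0 := by
    intro t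
    obtain ⟨y, hy, hb⟩ := hdim.2 t
    exact ⟨y, hy.1, hy.2, hb⟩
  obtain ⟨δ, hδ, H₀, h⟩ := Pool.Agent.TH971.RF.main7 Pool.Agent.W356.RW.cnt2 N (n + 1) q k m e
    (fun _ => R) he (fun _ => hR) (fun _ : Fin q => 0)
    (fun i => by
      refine (Finset.card_le_univ _).trans ?_
      rw [Fintype.card_fin]
      exact hqR) d c hc G hhom halg h1 h2
  refine ⟨δ, hδ, H₀, fun hA hB hF ha hb hAB hFb hab => ?_⟩
  have hbox : ∀ f : Family N e R d c, f ∈ box N e R d c hA hB hF ha hb ↔
      toM f ∈ Pool.Agent.TH971.RF.boxM N e (fun _ => R) (fun _ : Fin q => 0) d c hA hB hF ha hb :=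
    fun f => Iff.rfl
  have himg : toM '' box N e R d c hA hB hF ha hb =
      Pool.Agent.TH971.RF.boxM N e (fun _ => R) (fun _ : Fin q => 0) d c hA hB hF ha hb := by
    ext f
    constructor
    · rintro ⟨f, hf, rfl⟩
      exact (hbox f).1 hf
    · intro hf
      obtain ⟨f', rfl⟩ := toM_bij.2 f
      exact ⟨f', (hbox f').2 hf, rfl⟩
  have hfinM := Pool.Agent.TH971.RF.boxM_finite (N := N) (e := e) (R := fun _ => R)
    (g := fun _ : Fin q => 0) (d := d) (dt := c) hA hB hF ha hb
  have hfin : (box N e R d c hA hB hF ha hb).Finite := by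
    rw [← himg] at hfinM
    exact hfinM.of_finite_image toM_bij.1.injOn
  have hcard : (box N e R d c hA hB hF ha hb).ncard =
      (Pool.Agent.TH971.RF.boxM N e (fun _ => R) (fun _ : Fin q => 0) d c hA hB hF ha hb).ncard := by
    rw [← himg, Set.ncard_image_of_injective _ toM_bij.1]
  rw [hcard]
  refine (h hA hB hF ha hb hAB hFb hab).trans (Nat.cast_le.2 ?_)
  rw [← Set.ncard_image_of_injective _ toM_bij.1]
  refine Set.ncard_le_ncard ?_ ((hfin.subset fun f hf => hf.1).image _)
  rintro fM ⟨hf1, hf2, hf3⟩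
  obtain ⟨f, rfl⟩ := toM_bij.2 fM
  refine ⟨f, ⟨(hbox f).2 hf1, ?_, ?_⟩, rfl⟩
  · -- the dimension
    intro ψ hψ
    obtain ⟨y, hy0, hyG, hyd, hyB, hyab, hyF, ⟨P, hP⟩, hI⟩ := hf2 ψ hψ
    refine ⟨y, ⟨hy0, hyG⟩, ⟨hyd, hyB, hyab, hyF⟩, ⟨fun l => P 0 l, fun l =>
      (onM_iff f l y _).2 (hP l)⟩, fun P' hP' => ?_⟩
    have h3 := hI (Fin.cons (α := fun i : Fin (n + 1) => Fin q → (Pool.Agent.W466.EP.crv
      (Pool.Agent.W466.ZP.ev ((toM f).A i) y) (Pool.Agent.W466.ZP.ev ((toM f).B i) y)).Point) P'
      (fun i l => 0)) (fun l => (onM_iff f l y _).1 (hP' l))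
    convert h3 using 1
    funext t
    generalize ψ t = z
    rcases z with (i | l) | w
    · rfl
    · change xCoord (P' l) ^ 3 / _ = Pool.Agent.W466.EP.xx _ ^ 3 / _
      rw [xCoord_eq]
      rfl
    · rfl
  · intro ρ
    have hkey : ∀ y, OnB G y → MeetsSpecial f y ρ →
        (∀ (j0 : Fin (N + 1)) (T : Finset (Fin (N + 1))),
          AlgebraicIndependent ℚ (fun j : T => y j / y j0) → T.card + ρ ≤ m) ∧
        ∀ T : Finset (Fin (N + 1)), AlgebraicIndependent ℚ (fun j : T => y j) →
          T.card + ρ ≤ m + 1 := by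
      rintro y ⟨hy0, hyG⟩ ⟨r, Z, ρ₁, ρ₂, hρ, ⟨x, hx, hxy⟩, ⟨P, hP, E, cc, hcc, hccP⟩, u, hu0, hu,
        a, ha, hau⟩
      have hρ₁ := le_finrank E P cc hcc hccP
      have hρ₂ := le_finrank_tor u hu0 a ha hau
      let E' : ∀ i : Fin (n + 1), Pool.Agent.TH971.RF.EndRing
          (Pool.Agent.W466.ZP.ev ((toM f).A i) y) (Pool.Agent.W466.ZP.ev ((toM f).B i) y) :=
        Fin.cons (toE E) (fun i => intRing _ _)
      let Λ : ∀ i : Fin (n + 1), Submodule (E' i).O (Fin q → (E' i).O) :=
        Fin.cons (relMod E P) (fun i => ⊥)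
      have h3 := hf3 r Z y hy0 hyG x hx hxy
        (Fin.cons (α := fun i : Fin (n + 1) => Fin q → (Pool.Agent.W466.EP.crv
          (Pool.Agent.W466.ZP.ev ((toM f).A i) y) (Pool.Agent.W466.ZP.ev ((toM f).B i) y)).Point) P
          (fun i l => 0)) (fun l => (onM_iff f l y _).1 (hP l)) E' Λ
        (by
          intro i
          refine Fin.cases ?_ ?_ i
          · intro a _ l hl
            exact absurd rfl hl
          · intro i a ha l _
            have ha' : a = 0 := (Submodule.mem_bot _).1 ha
            rw [ha']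
            rfl)
        (by
          intro i
          refine Fin.cases ?_ ?_ i
          · intro a ha
            exact ha
          · intro i a ha
            have ha' : a = 0 := (Submodule.mem_bot _).1 ha
            refine ⟨1, one_pos, ?_⟩
            rw [ha', one_nsmul]
            refine Finset.sum_eq_zero fun l _ => ?_
            rw [Pi.zero_apply, map_zero]
            rfl)
        u hu (relTor u hu0) (fun a ha => ha)
      have h4 : ∑ i, Module.finrank (E' i).O (Λ i) = Module.finrank E.O (relMod E P) := by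
        rw [Fin.sum_univ_succ]
        have h5 : ∀ i : Fin n, Module.finrank (E' i.succ).O (Λ i.succ) = 0 :=
          fun i => finrank_bot _ _
        rw [Finset.sum_eq_zero fun i _ => h5 i, add_zero]
        rfl
      rw [h4] at h3
      refine ⟨fun j0 T hT => ?_, fun T hT => ?_⟩
      · have h5 := h3.1 j0 T hT
        omega
      · have h5 := h3.2 T hT
        omega
    refine ⟨fun y hy hS => (hkey y hy hS).1, ?_⟩
    intro W p hW hcl hprime hp
    obtain ⟨w, hwW, hpw, T, hT, hdimW⟩ :=
      Pool.Agent.W282.LF.generic_dim_open ℚ W hprime hcl p hp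
    obtain ⟨hwB, hwS⟩ := hW w hwW hpw
    have h3 := (hkey w hwB hwS).2 T hT
    calc zdim W + (ρ : Cardinal) ≤ (T.card : Cardinal) + (ρ : Cardinal) := by gcongr
      _ = ((T.card + ρ : ℕ) : Cardinal) := by push_cast; rfl
      _ ≤ ((m + 1 : ℕ) : Cardinal) := by exact_mod_cast h3

end Pool.Agent.Results.MP_a325a5_ag.RandomMixedShimura
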